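import Pool.Agent.Y522.NA.AllK

/-!
# MP_2fc7fa_gt, Q1: families of diffeomorphisms and smooth homeomorphisms of corank at most one

Q1 asks whether the space of symplectic forms on `CP²` in a given class is contractible.  By the
theorems of Gromov and Taubes this space is the quotient of the group `Diff_h(CP²)` of
diffeomorphisms acting trivially on homology by a subgroup homotopy equivalent to `PU(3)`, so Q1 is
a question about all homotopy groups of `Diff_h(CP²)`: which spheres of diffeomorphisms bound balls
of diffeomorphisms?  The theorem says that it is enough to find a ball in a larger space.  It is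
stated for all closed smooth manifolds `X`, `Y` of the same dimension `m + 1` (for Q1
`X = Y = CP²`, `m = 3`) and for families with any number `k` of parameters: if `f_s : X → Y` is a
family, smooth in both variables, of bijections (hence homeomorphisms) whose derivatives have rank
at least `m` everywhere, where `s` runs over the unit ball of `ℝ^k`, and the `f_s` with `‖s‖ = 1`
are diffeomorphisms, then the family over the unit sphere extends to a smooth family of
diffeomorphisms.

The inverses of the maps `f_s` need not be differentiable and nothing is assumed about the sets of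
critical points.

The method: on `ℝ^k × X` the map `(s, x) ↦ (s, f_s x)` is a smooth homeomorphism of corank at most
one over `ℝ^k`; near a critical point it has `k + m` smooth linear coordinates, among which are
those of `s`, and is strictly monotone along the fibres of these; the remaining coordinate is
mollified in boxes, one after the other, with control of the `C^1` distance in all the other boxes.
-/

set_option autoImplicit false

open Set Filter Topology Metric Function
open scoped Manifold ContDiff

noncomputable section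

namespace Pool.Agent.Results.MP_2fc7fa_gt.CorankOneFamilies

/-- the linear map `L` has rank at least `m`: composed with some linear map it is onto `ℝ^m` -/
def RankAtLeast (m : ℕ) {n : ℕ}
    (L : EuclideanSpace ℝ (Fin n) →L[ℝ] EuclideanSpace ℝ (Fin n)) : Prop :=
  ∃ P : EuclideanSpace ℝ (Fin n) →L[ℝ] EuclideanSpace ℝ (Fin m), Surjective (fun v => P (L v))

theorem RankAtLeast.le {m n : ℕ}
    {L : EuclideanSpace ℝ (Fin n) →L[ℝ] EuclideanSpace ℝ (Fin n)} (h : RankAtLeast m L) :
    m ≤ Module.finrank ℝ (LinearMap.range L.toLinearMap) := by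
  obtain ⟨P, hP⟩ := h
  have h4 : Surjective (P.toLinearMap ∘ₗ (LinearMap.range L.toLinearMap).subtype) := by
    intro w
    obtain ⟨v, hv⟩ := hP w
    exact ⟨⟨_, LinearMap.mem_range_self _ v⟩, hv⟩
  have h5 := LinearMap.finrank_le_finrank_of_surjective h4
  rwa [finrank_euclideanSpace, Fintype.card_fin] at h5

/-- `φ` is a diffeomorphism -/
def IsDiffeo (n : ℕ) {X Y : Type} [TopologicalSpace X]
    [ChartedSpace (EuclideanSpace ℝ (Fin n)) X] [TopologicalSpace Y]
    [ChartedSpace (EuclideanSpace ℝ (Fin n)) Y] (φ : X → Y) : Prop :=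
  ∃ Φ : X ≃ₘ^∞⟮𝓡 n, 𝓡 n⟯ Y, ∀ x, Φ x = φ x

/-- `f_s`, `s ∈ ℝ^k`, is a smooth family of maps: `f_s x` is smooth in `(s, x)` -/
def SmoothFamily (k n : ℕ) {X Y : Type} [TopologicalSpace X]
    [ChartedSpace (EuclideanSpace ℝ (Fin n)) X] [TopologicalSpace Y]
    [ChartedSpace (EuclideanSpace ℝ (Fin n)) Y] (f : EuclideanSpace ℝ (Fin k) → X → Y) : Prop :=
  ContMDiff ((𝓡 k).prod (𝓡 n)) (𝓡 n) ∞ (fun p : EuclideanSpace ℝ (Fin k) × X => f p.1 p.2)

/-- A sphere of diffeomorphisms of closed manifolds which bounds a smooth ball of smooth bijections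
of corank at most one bounds a smooth ball of diffeomorphisms. -/
theorem result (k m : ℕ) (X Y : Type) [TopologicalSpace X] [T2Space X] [CompactSpace X]
    [ChartedSpace (EuclideanSpace ℝ (Fin (m + 1))) X] [IsManifold (𝓡 (m + 1)) ∞ X]
    [TopologicalSpace Y] [T2Space Y]
    [ChartedSpace (EuclideanSpace ℝ (Fin (m + 1))) Y] [IsManifold (𝓡 (m + 1)) ∞ Y]
    (f : EuclideanSpace ℝ (Fin k) → X → Y) (hf : SmoothFamily k (m + 1) f)
    (hb : ∀ s, ‖s‖ ≤ 1 → Bijective (f s))
    (hr : ∀ s, ‖s‖ ≤ 1 → ∀ x, RankAtLeast m (mfderiv (𝓡 (m + 1)) (𝓡 (m + 1)) (f s) x))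
    (h1 : ∀ s, ‖s‖ = 1 → IsDiffeo (m + 1) (f s)) :
    ∃ K : EuclideanSpace ℝ (Fin k) → X → Y, SmoothFamily k (m + 1) K ∧
      (∀ s, IsDiffeo (m + 1) (K s)) ∧ ∀ s, ‖s‖ = 1 → K s = f s := by
  obtain ⟨K, k1, k2, k3, k4⟩ := Pool.Agent.Y522.NA.ki_final k m X Y (fun p => f p.1 p.2) hf hb
    (fun s hs x => (hr s hs x).le)
    (fun s hs x => by
      obtain ⟨Φ, e⟩ := h1 s hs
      have e' : (fun x => f s x) = Φ := funext fun x => (e x).symm
      show IsLocalDiffeomorphAt (𝓡 (m + 1)) (𝓡 (m + 1)) ∞ (fun x => f s x) x
      rw [e']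
      exact Φ.isLocalDiffeomorph x)
  refine ⟨fun s x => K (s, x), k1, fun s => ?_, fun s hs => funext fun x => k4 s hs x⟩
  have hl : IsLocalDiffeomorph (𝓡 (m + 1)) (𝓡 (m + 1)) ∞ (fun x => K (s, x)) := k3 s
  exact ⟨hl.diffeomorphOfBijective (k2 s), fun x => rfl⟩

end Pool.Agent.Results.MP_2fc7fa_gt.CorankOneFamilies
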