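import Mathlib
import Pool.Agent.Y685.SY.Main3

/-!
# Families of cohomologous symplectic forms: families of rough forms suffice

Let `M` be a closed smooth manifold, for instance the complex projective plane, `θ₀` a smooth closed
2-form on `M`, `ι` a compact space and `(θ t)`, `t ∈ ι`, a family of weakly closed 2-forms
cohomologous to `θ₀`, continuous in the critical Sobolev space `W^{1,m}` and uniformly nondegenerate
(or uniformly tame in the mean).  Then there is a family of symplectic forms `(σ t)` cohomologous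
to `θ₀`, continuous for the `C^∞` topology, such that the segment from `θ t` to `σ t` consists of
nondegenerate forms for all `t` in a given closed subset `B` of `ι` on which `θ` is a continuous
family of continuous forms.
-/

open scoped Manifold ContDiff
open Set
open Pool.Agent.Y519.AS (TwoForm)
open Pool.Agent.Y685.SY

namespace Pool.Agent.Results.MP_2fc7fa_gt.CriticalSobolevFamilies

theorem result {E : Type} [NormedAddCommGroup E] [InnerProductSpace ℝ E] [FiniteDimensional ℝ E]
    [MeasurableSpace E] [BorelSpace E] (hm : 0 < Module.finrank ℝ E)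
    {M : Type} [TopologicalSpace M] [ChartedSpace E M] [IsManifold 𝓘(ℝ, E) ∞ M]
    [CompactSpace M] [T2Space M] {ι : Type} [TopologicalSpace ι] [CompactSpace ι]
    (θ : ι → TwoForm E M) (θ₀ : TwoForm E M) (α : ι → Cov E M)
    (h₀ : θ₀.IsSmooth) (c₀ : θ₀.IsClosedForm) (hα : ∀ t, WeakD (θ t) θ₀ (α t))
    (hαc : ContFam1 α) (hθ : (SobolevFamily θ ∧ UnifNondeg θ) ∨ MeanTame θ)
    (B : Set ι) (hB : IsClosed B) (hBc : ContFam2 B θ) :
    ∃ (σ : ι → TwoForm E M) (β : ι → Cov E M), SmoothFam2 σ ∧ SmoothFam1 β ∧
      (∀ t, (σ t).IsSymplectic ∧ IsD (σ t) θ₀ (β t)) ∧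
      ∀ t ∈ B, ∀ s ∈ Icc (0 : ℝ) 1, (comb s (θ t) (σ t)).IsNondegenerate :=
  smoothing_family hm hB h₀ c₀ hα hαc hθ hBc

end Pool.Agent.Results.MP_2fc7fa_gt.CriticalSobolevFamilies
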