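import Mathlib
import Pool.Agent.Y501.SY.BridgeF

/-!
# Families of closed two-forms with small degeneracies

A compact family of closed two-forms `σ p` on a closed manifold and of almost complex structures
`J p`, such that the components of the set where `σ p` does not tame `J p` are small, is changed
by exact forms into a family of symplectic forms taming `J p`. Nothing is changed over a closed
set of parameters where the forms tame already. So a sphere in the space of symplectic forms in a
class bounds in this space if it bounds in the space of such forms in the class.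
-/

set_option autoImplicit false

open Set
open scoped Manifold ContDiff

namespace Pool.Agent.Results.MP_2fc7fa_gt.SmallExceptionalFamilies

open Pool.Agent.Y501.SYP

theorem result (d : ℕ) (P : Type) [TopologicalSpace P] [CompactSpace P] [T2Space P]
    (X : Type) [TopologicalSpace X] [ChartedSpace (ES d) X] [IsManifold 𝓘(ℝ, ES d) ∞ X]
    [CompactSpace X] [T2Space X] (J : P → End (ES d) X) (hJa : ∀ z, IsAlmostComplex (J z))
    (hJ : ContFamEnd J) (σ : P → Form (ES d) X 2) (hσs : ∀ z, IsSmooth (σ z))
    (hσc : ∀ z, IsClosedForm (σ z)) (hσ : ContFamForm σ) (A : Set P) (hA : IsClosed A)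
    (hAt : ∀ z ∈ A, ∀ x, TamesAt (σ z) (J z) x)
    (hsmall : ∀ z, SmallNotTamed (σ z) (J z)) :
    ∃ (n : ℕ) (c : Fin n → P → ℝ) (α : Fin n → Form (ES d) X 1) (η : Fin n → Form (ES d) X 2),
      (∀ i, Continuous (c i)) ∧ (∀ i, ∀ z ∈ A, c i z = 0) ∧
      (∀ i, IsSmooth (α i) ∧ IsSmooth (η i) ∧ IsD (α i) (η i)) ∧
      ∀ z, IsTamingSymplectic (plusSum (σ z) (fun i => c i z) η) (J z) :=
  families J hJa hJ σ hσs hσc hσ A hA hAt hsmall

end Pool.Agent.Results.MP_2fc7fa_gt.SmallExceptionalFamilies
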